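import Pool.Agent.H41.Sg3

set_option autoImplicit false

open Pool.Agent.H41.Cg

theorem Pool.Agent.Results.MP_f45ea1_an.No.result :
    ∃ (X : Type) (_ : AddCommGroup X) (_ : Module ℝ X) (N : X → ℝ) (x : ℕ → X)
      (xs : ℕ → X →ₗ[ℝ] ℝ), IsPNorm ℝ (1 / 2) N ∧ NComplete N ∧ QMBasis N x xs ∧
      SemiGreedy N x xs ∧ ¬AlmostGreedy N x xs :=
  Pool.Agent.H41.Sg.main
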